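import Pool.Agent.helper93.TV.Spec1

/-!
# MP_29f1cd_al, row tv:H3
-/

set_option autoImplicit false

namespace Pool.Agent.helper93.TV

open BigOperators Finset Matrix

theorem H3_inner {V : Type} [Fintype V] [DecidableEq V] (F : V → V → V → V → ℂ)
    (Y : Matrix (V × V) (V × V) ℂ) (x1 x2 ε : V) (b : V × V × V) :
    ∑ a, L23 (Fm F) (x1, x2, ε) a * L13 Y a b =
      ∑ ν, F x2 ε b.2.1 ν * Y (x1, ν) (b.1, b.2.2) := by
  rw [Fintype.sum_prod_type, Finset.sum_eq_single x1]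
  · rw [Fintype.sum_prod_type, Finset.sum_eq_single b.2.1]
    · refine Finset.sum_congr rfl fun a3 _ => ?_
      simp [L23, L13, Fm]
    · intro a2 _ h2
      refine Finset.sum_eq_zero fun a3 _ => ?_
      simp only [L13]
      rw [if_neg h2, mul_zero]
    · intro h
      exact absurd (Finset.mem_univ _) h
  · intro a1 _ h1
    refine Finset.sum_eq_zero fun a _ => ?_
    simp only [L23]
    rw [if_neg (Ne.symm h1), zero_mul]
  · intro h
    exact absurd (Finset.mem_univ _) h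

theorem H3_f3 {V : Type} [Fintype V] [DecidableEq V] (F : V → V → V → V → ℂ)
    (Y : Matrix (V × V) (V × V) ℂ) (x1 x2 y1 y2 ε : V) :
    f3 F Y (x1, x2, ε) (y1, y2, ε) =
      ∑ β, ∑ ν', (∑ ν, F x2 ε β ν * Y (x1, ν) (y1, ν')) * star (F y2 ε β ν') := by
  rw [f3, Matrix.mul_apply, Fintype.sum_prod_type, Finset.sum_eq_single y1]
  · rw [Fintype.sum_prod_type]
    refine Finset.sum_congr rfl fun b2 _ => ?_
    refine Finset.sum_congr rfl fun b3 _ => ?_
    rw [Matrix.mul_apply, H3_inner, Matrix.conjTranspose_apply]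
    simp [L23, Fm]
  · intro b1 _ h1
    refine Finset.sum_eq_zero fun b _ => ?_
    rw [Matrix.conjTranspose_apply]
    simp only [L23]
    rw [if_neg (Ne.symm h1), star_zero, mul_zero]
  · intro h
    exact absurd (Finset.mem_univ _) h

/-- the sum over the vertex `ε` and the vertex `β` -/
theorem H3_sum {I V : Type} [Fintype I] [DecidableEq I] [Fintype V] [DecidableEq V]
    (hQ : Q1_stmt) (hS : S1_stmt) (D : FD I V) (F : V → V → V → V → ℂ) (hF : D.UFS F)
    (hD : D.Dims F) (x2 y2 ν ν' : V) :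
    ∑ ε, ∑ β, (if D.t x2 = D.s1 ε then D.wt F ε else 0) * (F x2 ε β ν * star (F y2 ε β ν')) =
      if x2 = y2 ∧ ν = ν' ∧ D.s1 x2 = D.s1 ν then D.wt F ν else 0 := by
  have hq := hQ hS I V D F hF hD x2 ν y2 ν'
  have h1 : ∀ ε β, (if D.t x2 = D.s1 ε then D.wt F ε else 0) *
      (F x2 ε β ν * star (F y2 ε β ν')) =
      ((D.dm F (D.t ν) / D.dm F (D.t x2) : ℝ) : ℂ) *
        ((D.dm F (D.s2 ε) : ℂ) * F x2 ε β ν * star (F y2 ε β ν')) := by
    intro ε β
    by_cases h0 : F x2 ε β ν = 0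
    · rw [h0]; ring
    · obtain ⟨h2, h3, h4, h5, h6, h7⟩ := (hF.uf.conn.supp _ _ _ _ h0).1
      rw [if_pos h2]
      unfold FD.wt
      rw [← h2, h7]
      push_cast
      ring
  rw [Finset.sum_congr rfl fun ε _ => Finset.sum_congr rfl fun β _ => h1 ε β]
  have h2 : ∑ ε, ∑ β, ((D.dm F (D.t ν) / D.dm F (D.t x2) : ℝ) : ℂ) *
        ((D.dm F (D.s2 ε) : ℂ) * F x2 ε β ν * star (F y2 ε β ν')) =
      ((D.dm F (D.t ν) / D.dm F (D.t x2) : ℝ) : ℂ) *
        ∑ ε, ∑ β, (D.dm F (D.s2 ε) : ℂ) * F x2 ε β ν * star (F y2 ε β ν') := by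
    rw [Finset.mul_sum]
    refine Finset.sum_congr rfl fun ε _ => ?_
    rw [Finset.mul_sum]
  rw [h2, hq]
  by_cases h3 : x2 = y2 ∧ ν = ν' ∧ D.s1 x2 = D.s1 ν
  · rw [if_pos h3, if_pos h3, h3.2.2]
    unfold FD.wt
    rw [← Complex.ofReal_mul]
    congr 1
    have h4 := (hD.pos (D.t x2)).ne'
    have h5 := (hD.pos (D.s1 ν)).ne'
    field_simp
  · rw [if_neg h3, if_neg h3, mul_zero]

theorem H3 : H3_stmt := by
  intro hQ hS I V _ _ _ _ D F hF hD Y hY x y hxy
  obtain ⟨x1, x2⟩ := x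
  obtain ⟨y1, y2⟩ := y
  simp only at hxy
  simp only [FD.h3, g3, T1, FD.h2]
  have e1 : ∀ ε, (if D.t x2 = D.s1 ε then
        D.wt F ε * f3 F Y (x1, x2, ε) (y1, y2, ε) else 0) =
        ∑ β, ∑ ν', ∑ ν, (if D.t x2 = D.s1 ε then D.wt F ε else 0) *
          (F x2 ε β ν * star (F y2 ε β ν')) * Y (x1, ν) (y1, ν') := by
    intro ε
    by_cases h2 : D.t x2 = D.s1 ε
    · simp only [if_pos h2]
      rw [H3_f3, Finset.mul_sum]
      refine Finset.sum_congr rfl fun β _ => ?_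
      rw [Finset.mul_sum]
      refine Finset.sum_congr rfl fun ν' _ => ?_
      rw [Finset.sum_mul, Finset.mul_sum]
      refine Finset.sum_congr rfl fun ν _ => ?_
      ring
    · simp only [if_neg h2, zero_mul, Finset.sum_const_zero]
  have e2 : ∑ ε, (if D.t x2 = D.s1 ε then
        D.wt F ε * f3 F Y (x1, x2, ε) (y1, y2, ε) else 0) =
      ∑ ν', ∑ ν, (if x2 = y2 ∧ ν = ν' ∧ D.s1 x2 = D.s1 ν then D.wt F ν else 0) *
        Y (x1, ν) (y1, ν') := by
    rw [Finset.sum_congr rfl fun ε _ => e1 ε]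
    have e3 : ∀ ε, ∑ β, ∑ ν', ∑ ν, (if D.t x2 = D.s1 ε then D.wt F ε else 0) *
          (F x2 ε β ν * star (F y2 ε β ν')) * Y (x1, ν) (y1, ν') =
        ∑ ν', ∑ ν, ∑ β, (if D.t x2 = D.s1 ε then D.wt F ε else 0) *
          (F x2 ε β ν * star (F y2 ε β ν')) * Y (x1, ν) (y1, ν') := by
      intro ε
      rw [Finset.sum_comm]
      refine Finset.sum_congr rfl fun ν' _ => ?_
      rw [Finset.sum_comm]
    rw [Finset.sum_congr rfl fun ε _ => e3 ε, Finset.sum_comm]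
    refine Finset.sum_congr rfl fun ν' _ => ?_
    rw [Finset.sum_comm]
    refine Finset.sum_congr rfl fun ν _ => ?_
    rw [← H3_sum hQ hS D F hF hD x2 y2 ν ν', Finset.sum_mul]
    refine Finset.sum_congr rfl fun ε _ => ?_
    rw [Finset.sum_mul]
  rw [e2]
  by_cases h : x2 = y2
  · rw [if_pos h]
    refine congrArg (fun z => (((D.gd F)⁻¹ : ℝ) : ℂ) * z) ?_
    refine Finset.sum_congr rfl fun ν' _ => ?_
    rw [Finset.sum_eq_single ν']
    · by_cases h3 : D.t x1 = D.s1 ν'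
      · rw [if_pos h3, if_pos ⟨h, rfl, hxy.symm.trans h3⟩]
      · rw [if_neg h3, if_neg, zero_mul]
        rintro ⟨-, -, h4⟩
        exact h3 (hxy.trans h4)
    · intro ν _ hν
      rw [if_neg, zero_mul]
      rintro ⟨-, h4, -⟩
      exact hν h4
    · intro h4
      exact absurd (Finset.mem_univ _) h4
  · rw [if_neg h]
    have h5 : ∑ ν', ∑ ν, (if x2 = y2 ∧ ν = ν' ∧ D.s1 x2 = D.s1 ν then D.wt F ν else 0) *
        Y (x1, ν) (y1, ν') = 0 := by
      refine Finset.sum_eq_zero fun ν' _ => Finset.sum_eq_zero fun ν _ => ?_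
      rw [if_neg, zero_mul]
      rintro ⟨h4, -⟩
      exact h h4
    rw [h5, mul_zero]

end Pool.Agent.helper93.TV
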